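import Pool.Agent.R430.T1
import Pool.Agent.Y667.BKP.Main

/-!
# The Bloch–Kato rank formula for the Hilbert modular forms of `y² + y = x³` over nonabelian totally
# real fields

Call a prime of a number field good when `2` is not a cube modulo it.  Let `F = ℚ(√-3)`, let `N/F` be
a quadratic extension in which only good primes ramify (any class number), let `K/N` be a Galois
extension of exponent two in which only good primes ramify (or an abelian extension of degree `2 ^ n`
with an Artin map whose modulus has only good prime divisors), and let `k` be any TOTALLY REAL field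
with `k(√-3) = K`.  In general `k` is not abelian, and not Galois, over `ℚ`: for example `k` is any
totally real multiquadratic extension with good ramification of a real quadratic field with good
ramification.

The elliptic curve `E : y² + y = x³` over `k` corresponds to a Hilbert modular newform `g` over `k`
of parallel weight `2` and trivial central character (the base change of the theta series of the Hecke
character of `E`), `L(g, s) = L(E/k, s + 1)`, with rational eigenvalues, and `V_{g,2} = V_2 E`.
Theorem: both sides of the formula of Bloch and Kato for `g` and `λ = 2` are zero: `L(E/k, s)` is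
continued to the plane, `L(E/k, 1) ≠ 0`, and `H¹_f(k, V_2 E) = 0`.

`H1f 2 W` (`Pool.Agent.Y667.BKP.H1f`, starting library of helper667) is the group of the classes of
the continuous cocycles of the absolute Galois group with values in `V_2 W = T_2 W ⊗ ℚ_2` whose
restriction to the completion at every place is in the image of the Kummer map; this is the condition
of Bloch and Kato.  The central values and the 2-descent are from the starting library
(`Pool.Agent.R430`, `Pool.Agent.Y696`).
-/

set_option autoImplicit false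

namespace Pool.Agent.Results.MP_6e2fc3_nt.NonabelianTotallyReal

open NumberField IsDedekindDomain Pool.Agent.Y696
open Pool.Agent.Y667.BKP (H1f)
open scoped Classical

/-- only primes modulo which `2` is not a cube ramify in `K/F`: if `σ ≠ 1` lies in the inertia group of
the prime `w` of `K`, then `2` is not a cube modulo the prime of `F` below `w` -/
def GoodRam (F K : Type) [Field F] [NumberField F] [Field K] [NumberField K] [Algebra F K] : Prop :=
  ∀ (w : HeightOneSpectrum (𝓞 K)) (σ : Gal(K/F)), (∀ x : 𝓞 K, σ • x - x ∈ w.asIdeal) → σ ≠ 1 →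
    ∀ α : 𝓞 F, α ^ 3 - 2 ∉ w.asIdeal.under (𝓞 F)

/-- `Φ` is an Artin map modulo the ideal `𝔪` of the Galois extension `K/F` (`F` has no real place): on
the non-zero ideals prime to `𝔪` it is multiplicative, it is trivial on the ideals `(α)` with
`α - 1 ∈ 𝔪`, `α ≠ 0`, the inertia groups of the primes of `K` not above a prime divisor of `𝔪` are
trivial, and `Φ(𝔭)` acts as a Frobenius automorphism at the primes of `K` above `𝔭`, `𝔭 ∤ 𝔪` -/
structure ArtinMap {F K : Type} [Field F] [NumberField F] [Field K] [NumberField K] [Algebra F K]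
    (𝔪 : Ideal (𝓞 F)) (Φ : Ideal (𝓞 F) → Gal(K/F)) : Prop where
  mul : ∀ I J : Ideal (𝓞 F), I ≠ ⊥ → J ≠ ⊥ → IsCoprime I 𝔪 → IsCoprime J 𝔪 → Φ (I * J) = Φ I * Φ J
  ray : ∀ α : 𝓞 F, α ≠ 0 → α - 1 ∈ 𝔪 → Φ (Ideal.span {α}) = 1
  unram : ∀ w : HeightOneSpectrum (𝓞 K), ¬ 𝔪 ≤ w.asIdeal.under (𝓞 F) →
    ∀ σ : Gal(K/F), (∀ x : 𝓞 K, σ • x - x ∈ w.asIdeal) → σ = 1
  frob : ∀ w : HeightOneSpectrum (𝓞 K), ¬ 𝔪 ≤ w.asIdeal.under (𝓞 F) → ∀ x : 𝓞 K,
    Φ (w.asIdeal.under (𝓞 F)) • x - x ^ Nat.card (𝓞 F ⧸ w.asIdeal.under (𝓞 F)) ∈ w.asIdeal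

/-- the hypothesis on `K/N`: its Galois group has exponent `2` and only good primes ramify, or it is
abelian of degree `2 ^ n` and has an Artin map modulo an ideal `𝔪 ≠ 0` with only good prime divisors -/
def Admissible (N K : Type) [Field N] [NumberField N] [Field K] [NumberField K] [Algebra N K] : Prop :=
  (GoodRam N K ∧ ∀ σ : Gal(K/N), σ * σ = 1) ∨
    ((∃ n : ℕ, Module.finrank N K = 2 ^ n) ∧ (∀ σ τ : Gal(K/N), σ * τ = τ * σ) ∧
      ∃ 𝔪 : Ideal (𝓞 N), 𝔪 ≠ ⊥ ∧
        (∀ v : HeightOneSpectrum (𝓞 N), 𝔪 ≤ v.asIdeal → ∀ α : 𝓞 N, α ^ 3 - 2 ∉ v.asIdeal) ∧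
        ∃ Φ : Ideal (𝓞 N) → Gal(K/N), ArtinMap 𝔪 Φ)

/-- The formula of Bloch and Kato for the Hilbert modular form of `E : y² + y = x³` over `k` and
`λ = 2`, both sides being zero: the `L`-series of `E` over `k` (of Mathlib) converges for
`Re s > 3/2` and extends to a meromorphic function on the plane, which is analytic and not zero at
`s = 1`, and the Bloch–Kato Selmer group `H¹_f(k, V_2 E)` is zero. -/
structure RankFormula (k : Type) [Field k] [NumberField k] : Prop where
  analytic : ∃ L : ℂ → ℂ, MeromorphicOn L Set.univ ∧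
    (∀ s : ℂ, 3 / 2 < s.re →
      LSeriesSummable ((fun n : ℤ => (n : ℂ)) ∘ (⟨0, 0, 1, 0, 0⟩ : WeierstrassCurve k).LFunction) s ∧
      L s = (⟨0, 0, 1, 0, 0⟩ : WeierstrassCurve k).LSeries s) ∧
    AnalyticAt ℂ L 1 ∧ L 1 ≠ 0
  selmer : ∀ x : H1f 2 (⟨0, 0, 1, 0, 0⟩ : WeierstrassCurve k), x = 0

/-- **Main theorem.**  Let `F = ℚ(√-3)`, let `N/F` be a quadratic extension in which only good primes
ramify, `K/N` an admissible Galois extension and `k` a totally real field with `k(√-3) = K`.  Then the
formula of Bloch and Kato holds for the Hilbert modular form over `k` attached to `y² + y = x³` and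
`λ = 2`: the order of vanishing and `H¹_f(k, V_2)` are zero. -/
theorem result :
    ∀ (F N K k : Type) [Field F] [NumberField F] [IsCyclotomicExtension {3} ℚ F]
      [Field N] [NumberField N] [Algebra F N] [Field K] [NumberField K] [Algebra N K] [IsGalois N K]
      [Field k] [NumberField k] [IsTotallyReal k] [Algebra k K],
      Module.finrank F N = 2 → GoodRam F N → Admissible N K →
      (∃ a : K, a ^ 2 = -3 ∧ IntermediateField.adjoin k {a} = ⊤) → RankFormula k := by
  intro F N K k _ _ _ _ _ _ _ _ _ _ _ _ _ _ h2 hg hcase hk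
  have hyp : Pool.Agent.R430.Hyp N K := by
    rcases hcase with ⟨h3, h4⟩ | ⟨hn, hcomm, 𝔪, h𝔪, hgood, Φ, hΦ⟩
    · exact Or.inl ⟨h3, h4⟩
    · exact Or.inr ⟨hn, hcomm, 𝔪, h𝔪, hgood, Φ, hΦ.mul, hΦ.ray, hΦ.unram, hΦ.frob⟩
  have h := Pool.Agent.R430.all_k h2 hg hyp hk
  obtain ⟨L, h3, h4, h5, h6, -⟩ := h.analytic
  have key : ∀ (n : ℕ) (x : Pool.Agent.TH841.NF.D.Sha (E27 k)), 2 ^ n • x = 0 → x = 0 := by
    intro n
    induction n with
    | zero => intro x hx; simpa using hx
    | succ n ih =>
      intro x hx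
      apply ih
      apply h.sha
      rw [← two_nsmul, ← mul_smul, mul_comm, ← pow_succ]
      exact hx
  have key2 : ∀ (n : ℕ) (x : Pool.Agent.TH841.NF.D.Sha (E27 k)), 2 ^ n • x = 0 →
      2 ^ 0 • x = 0 := by
    intro n x hx
    rw [key n x hx, smul_zero]
  exact ⟨⟨L, h3, h4, h5, h6⟩,
    Pool.Agent.Y667.BKP.h1f_zero Nat.prime_two h.finite 0 key2⟩

end Pool.Agent.Results.MP_6e2fc3_nt.NonabelianTotallyReal
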