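import Mathlib
import Pool.Agent.N843.Em
import Pool.Agent.N843.Fb
import Pool.Agent.Results.MP_6e2fc3_nt.CMFormsAllWeights

/-!
# The rank formula of Bloch and Kato at `p = 2` for Hilbert modular forms of all weights `2k` over
# real quadratic fields, both sides: base changes of the CM forms of the twists of `X_0(49)`

Let `E_M` be the quadratic twist by `M` of `X_0(49)`, `ψ_M` its Hecke character over
`K = ℚ(√-7) = ℚ(w)`, `w² = w - 2`, and let `F = ℚ(√d_1, …, √d_n)`, a totally real field (`F = ℚ` for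
`n = 0`). For every `k > 0` the newform of weight `2k` of `ψ_M^{2k-1}` is the twist `f_k ⊗ χ_M` of
the newform `f_k` of level `49` of `ψ_1^{2k-1}`; its base change to `F` is a Hilbert modular newform
`g` of parallel weight `2k`, whose Galois representation `V_g` at the prime `2` (normalized such that
the arithmetic Frobenius of `v` has characteristic polynomial `X² - t_v X + q_v`) is the restriction
to `Gal(ℚ̄/F)` of the representation of `Gal(ℚ̄/ℚ)` induced from the character `κ^k κ'^(1-k)` of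
`Gal(ℚ̄/K)`; here `κ`, `κ'` are the characters by which `Gal(ℚ̄/K)` acts on the `2`-adic Tate module
of `E_M`. The `L`-function of `g` is the product over the sets `T ⊆ {1, …, n}` of the
`L(f_k ⊗ χ_d, s)`, where `d = M ∏_{i ∈ T} d_i` up to squares, and its centre is `s = k`.

Let `D ≥ 1` be good if it is squarefree, `D ≡ 1 mod 8`, `7 ∤ D`, `E_D(ℚ)` is finite and `Ш(E_D/ℚ)` has
no element of order two.

Theorem. 1. For all good `D ≠ D'` the rank formula holds at `p = 2`, with both sides `0`, over the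
real quadratic field `F = ℚ(√(D D'))` for the Hilbert modular forms `g` of **all** weights `2k` which
are the base changes of `f_k ⊗ χ_D` (and of `f_k ⊗ χ_{D'}`) for odd `k`, and of `f_k ⊗ χ_{-D}` (and of
`f_k ⊗ χ_{-D'}`) for even `k`: `H¹_f(F, V_g) = 0` **and** `L(g, s)` is not zero at the centre. It holds
over `F = ℚ` for the forms `f_k ⊗ χ_D`, `k` odd, and `f_k ⊗ χ_{-D}`, `k` even. 2. More generally it
holds over `F = ℚ(√d_1, …, √d_n)` if all the numbers `|M| ∏_{i ∈ T} d_i` are good up to squares, with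
`k` odd if `M > 0`, with `k` even if `M < 0`. 3. The good `D` have the natural density **exactly**
`c / 2`, `c = ∏_{i ≥ 0} (1 - 2^{-(2i+1)}) = 0.4194…`, among **all** squarefree `D ≥ 1` with
`D ≡ 1 mod 8`, `7 ∤ D`, and in every union of residue classes modulo `m` of such numbers.

The central values are not zero because of the exact power of a prime above `2` in their algebraic
parts: congruences modulo `4` and `16` between Eisenstein–Kronecker series and an induction over the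
sets of the prime elements of `K` dividing `D` reduce all the `k` to `k = 1`. The natural density is
by the machine of helpers 973, 713, 897, 226 and 186 (`N973/ND`), extended to the residue classes by
helpers 226 and 186 (`N226/DM`, `N186/DM`).
-/

set_option autoImplicit false

namespace Pool.Agent.Results.MP_6e2fc3_nt.RealQuadraticAllWeights

open Pool.Agent.Results.MP_787500_nt.AllWeightsMultiquadraticX49 (QBar OK ED Chr TateModule chi
  RankZeroShaTwo K Iso)
open Pool.Agent.Results.MP_6e2fc3_nt.CMFormsAllWeights (GQ Zero)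
open WeierstrassCurve Filter
open scoped Classical

/-- The pairs `(a, b)` such that the norm `a² + a b + 2 b²` of `a + b ω` is `l`. -/
noncomputable def elements (l : ℕ) : Finset (ℤ × ℤ) :=
  (Finset.Icc (-(2 * l : ℤ)) (2 * l) ×ˢ Finset.Icc (-(2 * l : ℤ)) (2 * l)).filter
    fun v => v.1 ^ 2 + v.1 * v.2 + 2 * v.2 ^ 2 = l

/-- The `l`-th coefficient of `f_k`: half the sum of the `(x / √-7) x ^ (2 k - 1)` over the elements
`x = a + b ω` of norm `l`, where `ω` is mapped to `z`; the symbol `(x / √-7)` is the Legendre symbol of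
`a + 4 b` modulo `7`, as `ω = 4` modulo `√-7`. -/
noncomputable def coeff (z : ℂ) (k l : ℕ) : ℂ :=
  (∑ v ∈ elements l, (jacobiSym (v.1 + 4 * v.2) 7 : ℂ) *
    ((v.1 : ℂ) + (v.2 : ℂ) * z) ^ (2 * k - 1)) / 2

/-- The value at `n > 0` of the quadratic character of `ℚ(√d)`, for odd squarefree `d` with
`|d| ≡ 1 mod 4`: it is the Jacobi symbol `(n / |d|)`, multiplied by the nontrivial character modulo
`4` if `d < 0`. -/
def quad (d n : ℤ) : ℤ := (if d < 0 then ZMod.χ₄ (n : ZMod 4) else 1) * jacobiSym n d.natAbs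

/-- `L(f_k ⊗ χ_d, s)`, the Dirichlet series with the coefficients `χ_d(l) a_k(l)` for
`Re s > k + 1/2`, has an entire continuation, and it is not zero at the centre `s = k`. -/
def OrderZero (k : ℕ) (d : ℤ) : Prop := ∀ z : ℂ, z ^ 2 = z - 2 → ∃ L : ℂ → ℂ, Differentiable ℂ L ∧
  (∀ s : ℂ, (k : ℝ) + 1 / 2 < s.re →
    LSeriesHasSum (fun l => (quad d l : ℂ) * coeff z k l) s (L s)) ∧ L k ≠ 0

/-- `D ≥ 1` is squarefree, `D ≡ 1 mod 8`, `7 ∤ D`, `E_D(ℚ)` is finite and `Ш(E_D/ℚ)` has no element of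
order two. -/
structure IsGood (D : ℕ) : Prop where
  squarefree : Squarefree D
  mod_eight : D % 8 = 1
  seven : ¬ 7 ∣ D
  rank : RankZeroShaTwo D

/-- All the numbers `|M| ∏_{i ∈ T} d_i` are good up to nonzero squares. -/
def GoodPair (M : ℤ) {n : ℕ} (d : Fin n → ℕ) : Prop := ∀ T : Finset (Fin n), ∃ D k : ℕ,
  k ≠ 0 ∧ IsGood D ∧ M.natAbs * ∏ i ∈ T, d i = D * k ^ 2

/-- The curve `E_d : y² = x³ - 3 d x² - 32 d² x - 64 d³`, the quadratic twist by `d` of
`X_0(49) : y² + x y = x³ - x² - 2 x - 1`. -/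
def model (d : ℤ) : WeierstrassCurve ℤ := ⟨0, -3 * d, 0, -32 * d ^ 2, -64 * d ^ 3⟩

/-- The weights `2k` for the twist by `d`: `k > 0` is odd if `d > 0` and even if `d < 0`. -/
def Weight (d k : ℤ) : Prop := 0 < k ∧ ((0 < d ∧ Odd k) ∨ (d < 0 ∧ Even k))

/-- The element `-√-7 d` of `ℤ[ω]`. -/
def tw (d : ℤ) : OK := ⟨d, -2 * d⟩

/-- The curve `E_M` is over `K` isomorphic to the elliptic curve `ED w (tw M)`, the absolute Galois
group of `K` acts on its `2`-adic Tate module by `κ`, `κ'`, and for `F = ℚ(√d_1, …, √d_n)` and all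
the `k` in `Weight M` the group `H¹_f(F, V)` is zero for the representation `V` of the form of weight
`2k`, that is, the one induced from `κ^k κ'^(1-k)`. -/
def AllForms (M : ℤ) {n : ℕ} (d : Fin n → ℕ) : Prop := ∀ w : QBar, w ^ 2 = w - 2 →
  Iso ((model M).map (Int.castRingHom (K w))) (ED w (tw M)) ∧ (ED w (tw M)).IsElliptic ∧
  ∃ κ κ' : Chr w, TateModule (tw M) κ κ' ∧
    ∀ s : Fin n → QBar, (∀ i, s i ^ 2 = (d i : QBar)) → ∀ c₀ : GQ, c₀ w = 1 - w →
      ∀ k : ℤ, Weight M k → Zero s (chi κ κ' k) c₀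

/-- The rank formula at `p = 2` over the field `F = ℚ(√d_1, …, √d_n)`, both sides being `0`, for the
base changes `g` to `F` of the newforms `f_k ⊗ χ_M` of the weights `2k` with `k` odd if `M > 0` and
even if `M < 0`: `AllForms M d` says that `H¹_f(F, V_g) = 0` for all of them, and `L(g, s)`, the
product over the sets `T` of the `L(f_k ⊗ χ_d, s)` with `d = M ∏_{i ∈ T} d_i` up to squares, is not
zero at `s = k`. -/
def RankFormula (M : ℤ) {n : ℕ} (d : Fin n → ℕ) : Prop :=
  AllForms M d ∧ ∀ T : Finset (Fin n), ∃ D k : ℕ, k ≠ 0 ∧ D % 4 = 1 ∧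
    M.natAbs * ∏ i ∈ T, d i = D * k ^ 2 ∧ ∀ k : ℕ, Weight M k → OrderZero k (M.sign * D)

/-- `D = d d'` in `ℤ[ω]` with `d ≡ 1 mod ω²`, `d ≠ 1`, such that `d` is a square modulo every prime
dividing `d'`, and `-√-7 d'` is a square modulo every prime dividing `d` (`√-7 = 2 ω - 1`). -/
def Factorisation (D : ℕ) : Prop := ∃ d d' : OK, (D : OK) = d * d' ∧
  (⟨0, 1⟩ : OK) ^ 2 ∣ d - 1 ∧ d ≠ 1 ∧
  (∀ p : OK, Prime p → p ∣ d' → ∃ x : OK, p ∣ x ^ 2 - d) ∧
  ∀ p : OK, Prime p → p ∣ d → ∃ x : OK, p ∣ x ^ 2 + (2 * (⟨0, 1⟩ : OK) - 1) * d'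

/-- Residue classes: `56 ∣ m`, and `R` is a nonempty set of numbers less than `m`, prime to `m` and
`1` modulo `8`. -/
structure Classes (m : ℕ) (R : Finset ℕ) : Prop where
  pos : 0 < m
  dvd : 56 ∣ m
  nonempty : R.Nonempty
  mem : ∀ a ∈ R, a < m ∧ Nat.Coprime a m ∧ a % 8 = 1

/-- The number of the squarefree `1 ≤ D ≤ X`, with residue modulo `m` in `R` and the property `Q`. -/
noncomputable def num (m : ℕ) (R : Finset ℕ) (Q : ℕ → Prop) (X : ℕ) : ℕ :=
  ((Finset.Icc 1 X).filter fun D => (Squarefree D ∧ D % m ∈ R) ∧ Q D).card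

/-- The property `Q` has the natural density `θ` among the squarefree `D` of the classes. -/
def HasDensity (m : ℕ) (R : Finset ℕ) (Q : ℕ → Prop) (θ : ℝ) : Prop :=
  Tendsto (fun X : ℕ => (num m R Q X : ℝ) / (num m R (fun _ => True) X : ℝ)) atTop (nhds θ)

/-- The constant `c = 0.4194…`. -/
noncomputable def c : ℝ := ∏' i : ℕ, (1 - (1 / 2 : ℝ) ^ (2 * i + 1))

/-! ### The proof -/

section proof

open Pool.Agent.N843.Z
open Pool.Agent.N843.A (coreLZ isoZ selZ twZ_ne)
open Pool.Agent.N843.E (exists_tateO)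
open Pool.Agent.Results.MP_787500_nt.AllWeightsMultiquadraticX49 (elliptic)

lemma zero_of {D : ℕ} (h : Fm D) {M : ℤ} {k : ℕ} (hk : Weight M k) :
    OrderZero k (M.sign * D) := by
  intro z hz
  have h1 : 1 ≤ k := by
    have := hk.1
    omega
  obtain ⟨F, h2, h3, h4⟩ := coreLZ h hz h1
  have e : ((-1 : ℤ) ^ (k + 1) * D) = M.sign * D := by
    rcases hk.2 with ⟨h5, h6⟩ | ⟨h5, h6⟩
    · have h7 : Odd k := by exact_mod_cast h6
      rw [Even.neg_one_pow h7.add_one, Int.sign_eq_one_of_pos h5]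
    · have h7 : Even k := by exact_mod_cast h6
      rw [Odd.neg_one_pow h7.add_one, Int.sign_eq_neg_one_of_neg h5]
  rw [e] at h3
  exact ⟨F, h2, fun s hs => h3 s hs, h4⟩

lemma fm_of {D : ℕ} (h : IsGood D) : Fm D := ⟨h.squarefree, h.mod_eight, h.seven, h.rank⟩

lemma formula_of {M : ℤ} {n : ℕ} {d : Fin n → ℕ} (hG : GoodPair M d) : RankFormula M d := by
  have hG' : Gp M.natAbs d := fun T => by
    obtain ⟨D, k, hk, h1, h2⟩ := hG T
    exact ⟨D, k, hk, fm_of h1, h2⟩
  obtain ⟨hM0, hd0⟩ := gp_ne hG'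
  have hM : M ≠ 0 := Int.natAbs_ne_zero.1 hM0
  refine ⟨fun w hw => ?_, fun T => ?_⟩
  · obtain ⟨κ, κ', ht, r, I, kd⟩ := exists_tateO hw (twZ_ne hM)
    refine ⟨isoZ hw M, elliptic (twZ_ne hM) hw, κ, κ', ht, fun s hs c₀ hc₀ k hk => ?_⟩
    exact Pool.Agent.Results.MP_6e2fc3_nt.CMFormsAllWeights.zero_of hw hc₀ hs
      (selZ hw hG' kd hs k hk).1
  · obtain ⟨D, k, hk, hA, he⟩ := hG T
    exact ⟨D, k, hk, by have := hA.mod_eight; omega, he, fun k hk => zero_of (fm_of hA) hk⟩

lemma formula_one {D : ℕ} (h : IsGood D) {d : ℤ} (hd : d = D ∨ d = -(D : ℤ)) :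
    RankFormula d (fun i : Fin 0 => i.elim0) := by
  refine formula_of fun T => ⟨D, 1, one_ne_zero, h, ?_⟩
  have hT : T = ∅ := by
    ext i
    exact i.elim0
  have hn : d.natAbs = D := by rcases hd with rfl | rfl <;> simp
  rw [hT, Finset.prod_empty, hn]
  ring

lemma formula_gp {M : ℤ} {n : ℕ} {d : Fin n → ℕ} (hG : Gp M.natAbs d) : RankFormula M d :=
  formula_of fun T => by
    obtain ⟨D, k, h1, h2, h3⟩ := hG T
    exact ⟨D, k, h1, ⟨h2.sq, h2.m8, h2.n7, h2.rz⟩, h3⟩

lemma formula_pm {N : ℕ} {n : ℕ} {d : Fin n → ℕ} (hG : Gp N d) :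
    RankFormula N d ∧ RankFormula (-N) d := by
  refine ⟨formula_gp ?_, formula_gp ?_⟩
  · rw [Int.natAbs_natCast]
    exact hG
  · rw [Int.natAbs_neg, Int.natAbs_natCast]
    exact hG

lemma cls_of {m : ℕ} {R : Finset ℕ} (h : Classes m R) : Cls m R :=
  ⟨h.pos, h.dvd, h.nonempty, fun a ha => by
    obtain ⟨h1, h2, h3⟩ := h.mem a ha
    exact ⟨h1, h2, by omega⟩⟩

lemma good_iff {m : ℕ} {R : Finset ℕ} (h : Classes m R) {D : ℕ} (hsq : Squarefree D)
    (hD : D % m ∈ R) : Pool.Agent.N818.TC.Rz (Pool.Agent.N818.TC.A D) (Pool.Agent.N818.TC.B D) ↔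
      IsGood D := by
  obtain ⟨h4, h7⟩ := cls_mod (cls_of h) hD
  have h8 : D % 8 = 1 := by
    obtain ⟨h1, h2, h3⟩ := h.mem _ hD
    obtain ⟨q, hq⟩ := h.dvd
    have e : D % m % 8 = D % 8 := Nat.mod_mod_of_dvd D (by rw [hq]; exact ⟨7 * q, by ring⟩)
    omega
  rw [← rz_long h4]
  exact ⟨fun h => ⟨hsq, h8, h7, h⟩, fun h => h.rank⟩

lemma dens {m : ℕ} {R : Finset ℕ} (h : Classes m R) : HasDensity m R IsGood (c / 2) := by
  refine (rz_R dm_den (cls_of h)).congr fun X => ?_
  have e1 : cnt m R (fun D => Pool.Agent.N818.TC.Rz (Pool.Agent.N818.TC.A D)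
      (Pool.Agent.N818.TC.B D)) X = num m R IsGood X :=
    cnt_congr (fun D h1 h2 => good_iff h h1 h2) X
  have e2 : cnt m R (fun _ => True) X = num m R (fun _ => True) X := rfl
  rw [e1, e2]

end proof

/-- **The rank formula of Bloch and Kato at `p = 2` for Hilbert modular forms of all weights `2k` over
the real quadratic fields `ℚ(√(D D'))`, `D ≠ D'` good, with both sides `0`; the case of `ℚ`; all good
pairs; the natural density of the good `D`.** -/
theorem result :
    (∀ D D' : ℕ, IsGood D → IsGood D' → D ≠ D' →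
      RankFormula D (fun _ : Fin 1 => D * D') ∧ RankFormula (-D) (fun _ : Fin 1 => D * D')) ∧
    (∀ D : ℕ, IsGood D → RankFormula D (fun i : Fin 0 => i.elim0) ∧
      RankFormula (-D) (fun i : Fin 0 => i.elim0)) ∧
    (∀ (n : ℕ) (M : ℤ) (d : Fin n → ℕ), GoodPair M d → RankFormula M d) ∧
    (∀ D : ℕ, Squarefree D → D % 8 = 1 → ¬ 7 ∣ D → (IsGood D ↔ ¬ Factorisation D)) ∧
    (∀ (m : ℕ) (R : Finset ℕ), Classes m R → HasDensity m R IsGood (c / 2)) ∧
    0.4194 < c ∧ c < 0.4195 := by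
  refine ⟨fun D D' h h' _ => formula_pm (Pool.Agent.F843.gp_two (fm_of h) (fm_of h')),
    fun D h => ⟨formula_one h (Or.inl rfl), formula_one h (Or.inr rfl)⟩,
    fun n M d h => formula_of h, fun D h1 h2 h3 => ?_,
    fun m R h => dens h, Pool.Agent.Y948.CQ.t_C2.2.2.2.1, Pool.Agent.Y948.CQ.t_C2.2.2.2.2⟩
  have h4 := Pool.Agent.N843.Z.rank_fac h1 (by omega) h3
  unfold Pool.Agent.N818.TD.Fac at h4
  rw [show (((D : ℤ) : Pool.Agent.N818.TD.OO)) = ((D : ℕ) : OK) by push_cast; rfl] at h4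
  exact ⟨fun h => h4.1 h.rank, fun h => ⟨h1, h2, h3, h4.2 h⟩⟩

end Pool.Agent.Results.MP_6e2fc3_nt.RealQuadraticAllWeights
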