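import Pool.Agent.N975.AF.Mq
import Pool.Agent.N975.SD.Dens
import Pool.Agent.N975.BK.Tot
import Pool.Agent.N970.AVP.Gen
import Pool.Agent.N973.P21G.Fo
import Pool.Agent.R390.NoInv
import Pool.Agent.Y667.BKP.Main
import Pool.Agent.N856.JL.Res
import Pool.Agent.N809.P17.All
import Pool.Agent.N809.SN.Fin
import Pool.Agent.N809.SN.Mul3
import Pool.Agent.N809.SN.Neg

/-!
# The Bloch-Kato rank formula for Hilbert modular forms without complex multiplication, `p = 2`

`E_{c,m}` is the quadratic twist by `m` of the curve `E_c`, where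

* `E_0 : y² = x (x + 9) (x - 16)` has conductor `15`,
* `E_1 : y² = x (x + 1) (x - 16)` has conductor `17`,
* `E_2 : y² = x (x - 9) (x + 7)` has conductor `21`;

none of them has complex multiplication. We consider all totally real multiquadratic fields
`F = ℚ(√d_1, …, √d_r)`, `d_i > 0`, of any degree `2 ^ r` and with any ramification, and all twists
`E_{c,m}`, `m ≠ 0`. The Hilbert modular newform `g` of parallel weight two over `F` with the
eigenvalues `t_v(g) = q_v + 1 - #E_{c,m}(k_v)` is the base change of the newform of `E_{c,m}` over `ℚ`, and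
`V_{g,2}` is the rational Tate module `V_2(E_{c,m})`. Call `E_{c,m}` good over `F` if the `2 ^ r` curves
`E_{c, m d_T}` over `ℚ`, `d_T` the products of the `d_i`, have finitely many rational points and no element
of order two in the Tate-Shafarevich group.

(1) If `E_{c,m}` is good over `F`, then the Bloch-Kato Selmer group `H¹_f(F, V_2(E_{c,m}))` is zero, also
`H⁰(F, V_2(E_{c,m}))` is zero, and the `L`-series of `E_{c,m}` over `F` (the one of Mathlib, with the Euler
factors of all finite places) has a meromorphic continuation to `ℂ`, whose order at the centre is zero. So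
the Bloch-Kato rank formula holds for `g` and the place `2`.

(2) The curve `E_c` is good over `F = ℚ(√D)` for exactly the proportion `(23/48) η`, `(17/36) κ`,
`(71/128) η` (`c = 0, 1, 2`) of all real quadratic fields, in the ordering by the discriminant and also by
`D`; both `E_0` and `E_1` are good over exactly `(391/1728) η κ` of them. Here
`η = ∏_{i ≥ 1} (1 - 2^{-i}) = 0.2887…`, `κ = ∏_{i ≥ 1} (1 - 2^{-(2i-1)}) = 0.4194…`.

(3) Fixed totally real field of any degree, varying form (a theorem of helper856): for every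
`F = ℚ(√d_1, …, √d_r)` of degree `2 ^ r` with squarefree `d_i ≡ 1 mod 12`, `d_i ≡ ± 1 mod 5`, the curve
`E_{0,-n}` is good over `F` for exactly the natural density `η ^ [F : ℚ]` of the squarefree numbers
`n ≡ 23, 47 mod 60` which are prime to the `d_i`.

(4) Over every real quadratic field infinitely many twists `E_{1,m}`, `m` squarefree, of the curve of
conductor `17` are good. The same holds over every field `F = ℚ(√d_1, …, √d_r)`, of any degree, with
`d_i > 0`, `d_i ≡ 1 mod 4` and `17 ∤ d_i`: every totally real multiquadratic field of discriminant prime to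
`34` (a theorem of helper 809).

The theorems over `ℚ` are joint work of helpers 969, 970, 971, 972, 973, 974, 975, 99, 218, 402, 575, 637,
809, 816, 844, 855, 856, 871, 875, 877, 886, 890, 916, 919, 958, 963 and others
(`Results/MP_696deb_nt/Conductor15.lean`, `Conductor17.lean`, `Conductor21.lean`,
`ConductorsJointLaw.lean`); the passage to the fields follows helpers 856, 809 and 970.
-/

set_option autoImplicit false

open NumberField IsDedekindDomain Filter Topology

namespace Pool.Agent.Results.MP_6e2fc3_nt.TwistsNonCMTotallyReal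

/-- the coefficients `a` of the equations `y² = x³ + a x + b` of the three curves -/
def α : Fin 3 → ℤ := ![-12987, -91, -5211]

/-- the coefficients `b` of the equations `y² = x³ + a x + b` of the three curves -/
def β : Fin 3 → ℤ := ![-263466, -330, -31050]

/-- the twist `E_{c,m} : y² = x³ + α_c m² x + β_c m³` over the field `K` -/
def E (c : Fin 3) (m : ℤ) (K : Type) [Field K] : WeierstrassCurve K :=
  { a₁ := 0, a₂ := 0, a₃ := 0, a₄ := ((α c * m ^ 2 : ℤ) : K), a₆ := ((β c * m ^ 3 : ℤ) : K) }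

/-- `E_{c,m}(ℚ)` is finite and `Ш(E_{c,m}/ℚ)` has no element of order two -/
def RankZeroShaTwo (c : Fin 3) (m : ℤ) : Prop :=
  Finite (E c m ℚ).toAffine.Point ∧ ∀ x : Pool.Agent.TH841.SH.D.Sha (E c m ℚ), 2 • x = 0 → x = 0

/-- `ℚ(√d_1, …, √d_r)` has degree `2 ^ r` -/
def Independent {r : ℕ} (d : Fin r → ℤ) : Prop :=
  ∀ T : Finset (Fin r), T.Nonempty → ¬ IsSquare (∏ i ∈ T, d i)

/-- `K = ℚ(√d_1, …, √d_r)` -/
def IsMultiquadratic {r : ℕ} (d : Fin r → ℤ) (K : Type) [Field K] [NumberField K] : Prop :=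
  ∃ x : Fin r → K, (∀ i, x i ^ 2 = (d i : K)) ∧ IntermediateField.adjoin ℚ (Set.range x) = ⊤

/-- `E_{c,m}` is good over `K = ℚ(√d_1, …, √d_r)` -/
def Good (c : Fin 3) {r : ℕ} (d : Fin r → ℤ) (m : ℤ) : Prop :=
  ∀ T : Finset (Fin r), RankZeroShaTwo c (m * ∏ i ∈ T, d i)

/-- `F` is a meromorphic continuation to `ℂ` of the `L`-series of `W` over the number field `K` -/
def IsContinuation {K : Type} [Field K] [NumberField K] (W : WeierstrassCurve K) (F : ℂ → ℂ) :
    Prop :=
  MeromorphicOn F Set.univ ∧ ∀ s : ℂ, 2 < s.re → F s = W.LSeries s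

/-- `H⁰(K, V_2 W) = 0`: the elements of `V_2 W` that are fixed by the Galois group are zero -/
def NoInvariants {K : Type} [Field K] (W : WeierstrassCurve K) : Prop :=
  ∀ x : Pool.Agent.Y667.BKP.PSeq W, Pool.Agent.Y667.BKP.IsV 2 W x →
    (∀ (σ : Pool.Agent.TH841.SH.D.Gal K) (n : ℕ),
      Pool.Agent.TH841.SH.D.act W σ.toAlgHom (x n) = x n) → ∀ n, x n = 0

/-- the Bloch-Kato formula for `V_2 W`, `W` an elliptic curve over the number field `K`, both sides
being zero: `H¹_f(K, V_2 W) = 0`, `H⁰(K, V_2 W) = 0`, the `L`-series has a meromorphic continuation to `ℂ`,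
and the order at the centre `s = 1` of every meromorphic continuation is zero -/
def BlochKatoZero {K : Type} [Field K] [NumberField K] (W : WeierstrassCurve K) : Prop :=
  (∀ x : Pool.Agent.Y667.BKP.H1f 2 W, x = 0) ∧ NoInvariants W ∧
  (∃ F : ℂ → ℂ, IsContinuation W F) ∧
  ∀ F : ℂ → ℂ, IsContinuation W F → meromorphicOrderAt F 1 = 0

/-- the curve `E_c` is good over the quadratic field `ℚ(√D)` -/
def GoodOver (c : Fin 3) (D : ℤ) : Prop := Good c (fun _ : Fin 1 => D) 1

/-- `D` is a fundamental discriminant (`1` included) -/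
def Fund (D : ℤ) : Prop := (Squarefree D ∧ D % 4 = 1) ∨
  ∃ m : ℤ, D = 4 * m ∧ Squarefree m ∧ (m % 4 = 2 ∨ m % 4 = 3)

/-- the squarefree integer `d` with `ℚ(√d) = ℚ(√D)` -/
def core (D : ℤ) : ℤ := if D % 2 = 1 then D else D / 4

open Classical in
/-- the number of the squarefree integers `D`, `|D| ≤ X`, with the property `P` -/
noncomputable def count (P : ℤ → Prop) (X : ℕ) : ℕ :=
  ((Finset.Icc (-(X : ℤ)) X).filter fun D => Squarefree D ∧ P D).card

open Classical in
/-- the number of the fundamental discriminants `D`, `|D| ≤ X`, for which `core D` has the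
property `P` -/
noncomputable def countDisc (P : ℤ → Prop) (X : ℕ) : ℕ :=
  ((Finset.Icc (-(X : ℤ)) X).filter fun D => Fund D ∧ P (core D)).card

/-- the set of the real quadratic fields `ℚ(√D)` with the property `P` has the proportion `p` among all
real quadratic fields, in the ordering by the discriminant and in the ordering by `D`, `D` squarefree -/
def HasProportion (P : ℤ → Prop) (p : ℝ) : Prop :=
  Tendsto (fun X : ℕ => (countDisc (fun D => 0 < D ∧ P D) X : ℝ) /
    (countDisc (fun D => 0 < D) X : ℝ)) atTop (𝓝 p) ∧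
  Tendsto (fun X : ℕ => (count (fun D => 0 < D ∧ P D) X : ℝ) /
    (count (fun D => 0 < D) X : ℝ)) atTop (𝓝 p)

/-- the numbers `n` of the curves `E_{0,-n}` -/
def TwistNumber (n : ℕ) : Prop := Squarefree n ∧ (n % 60 = 23 ∨ n % 60 = 47)

/-- the numbers `d` of the real quadratic fields `ℚ(√d)`, in which `2` is unramified and `3` and `5`
split -/
def SplitNumber (d : ℕ) : Prop := Squarefree d ∧ d % 12 = 1 ∧ (d % 5 = 1 ∨ d % 5 = 4)

open Classical in
/-- the number of the `n ≤ X` with the property `P` -/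
noncomputable def countNat (P : ℕ → Prop) (X : ℕ) : ℕ := ((Finset.Icc 1 X).filter fun n => P n).card

/-- among the numbers with the property `P`, those with the property `Q` have natural density `δ` -/
def HasDensity (P Q : ℕ → Prop) (δ : ℝ) : Prop :=
  Tendsto (fun X : ℕ => (countNat (fun n => P n ∧ Q n) X : ℝ) / (countNat P X : ℝ)) atTop (𝓝 δ)

section proof

open Pool.Agent.N975.AF (EC Law)
open Pool.Agent.N875.X15 (Fin2)
open Pool.Agent.N916.GB (eta)
open Pool.Agent.Y703.CQ (c2)
open Pool.Agent.N919.BS (NS NF Rt17)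
open Pool.Agent.N916.MO (G17)

theorem rz_iff (c : Fin 3) (m : ℤ) :
    RankZeroShaTwo c m ↔ Fin2 (EC ℚ (α c * m ^ 2) (β c * m ^ 3)) := by
  unfold RankZeroShaTwo Pool.Agent.N875.X15.Fin2
  refine and_congr Iff.rfl (forall_congr' fun x => ?_)
  rw [two_nsmul]
  exact Iff.rfl

theorem disc (c : Fin 3) : 4 * (α c) ^ 3 + 27 * (β c) ^ 2 ≠ 0 := by
  fin_cases c <;> simp [α, β]

theorem law (c : Fin 3) : Law (α c) (β c) := by
  intro N hN h
  fin_cases c
  · exact Pool.Agent.N973.P15G.F.rank15 hN h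
  · exact Pool.Agent.N809.P17.bsd_all hN h
  · exact Pool.Agent.N973.P21G.rank21 hN h

theorem sha (c : Fin 3) {r : ℕ} {d : Fin r → ℤ} {m : ℤ} (hm : m ≠ 0) (hind : Independent d)
    (hg : Good c d m) (K : Type) [Field K] [NumberField K] (x : Fin r → K)
    (hx : ∀ i, x i ^ 2 = (d i : K)) (hgen : IntermediateField.adjoin ℚ (Set.range x) = ⊤) :
    ∀ (k : ℕ) (y : Pool.Agent.TH841.NF.D.Sha (E c m K)), (2 ^ k : ℕ) • y = 0 →
      (2 ^ r : ℕ) • y = 0 := by
  classical
  have hd0 : ∀ i, d i ≠ 0 := by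
    intro i h0
    refine hind {i} (Finset.singleton_nonempty i) ?_
    rw [Finset.prod_singleton, h0]
    exact ⟨0, rfl⟩
  have h1 : ∀ T : Finset (Fin r), Pool.Agent.N970.AVP.RankZeroShaTwo c (m * ∏ i ∈ T, d i) := by
    intro T
    rw [Pool.Agent.N970.AVP.rz_iff]
    have h2 := (rz_iff c _).1 (hg T)
    fin_cases c <;> exact h2
  have h3 := (Pool.Agent.N970.AVP.shaK c hm hd0 h1 K x hx hgen).2
  fin_cases c <;> exact h3

theorem bk (c : Fin 3) {r : ℕ} {d : Fin r → ℤ} {m : ℤ} (hm : m ≠ 0) (hind : Independent d)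
    (hg : Good c d m) (K : Type) [Field K] [NumberField K] (x : Fin r → K)
    (hx : ∀ i, x i ^ 2 = (d i : K)) (hgen : IntermediateField.adjoin ℚ (Set.range x) = ⊤) :
    Module.finrank ℚ K = 2 ^ r ∧ BlochKatoZero (E c m K) := by
  classical
  obtain ⟨h1, h2, h3, h4⟩ := Pool.Agent.N975.AF.main (disc c) (law c) hm hind
    (fun T => (rz_iff c _).1 (hg T)) K x hx hgen
  have h2' : Finite (E c m K).toAffine.Point := h2
  exact ⟨h1, Pool.Agent.Y667.BKP.h1f_zero Nat.prime_two h2' r (sha c hm hind hg K x hx hgen),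
    fun y hy hfix => Pool.Agent.R390.noinv h2' y hy hfix, h3, h4⟩

/-- the curves themselves -/
theorem one_good (c : Fin 3) : RankZeroShaTwo c 1 := by
  rw [rz_iff]
  fin_cases c
  · exact (Pool.Agent.N875.D15.fin2S_iff_sg15 squarefree_one).2 (Or.inr (Or.inl rfl))
  · refine (Pool.Agent.N809.P17.fin2_all squarefree_one).2
      ⟨Or.inl ⟨one_pos, jacobiSym.one_left 17⟩, fun h => absurd h (by norm_num), fun _ => ?_⟩
    intro x y _ _ p hp
    have e : Pool.Agent.N916.MO.Kn 1 = 1 := rfl
    rw [e, Nat.primeFactors_one] at hp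
    exact absurd hp (Finset.notMem_empty p)
  · exact (Pool.Agent.N637.P21.fin2_S one_ne_zero).2 Pool.Agent.N973.P21G.fin2_one'

theorem good_one (c : Fin 3) (D : ℤ) : GoodOver c D ↔ RankZeroShaTwo c D := by
  unfold GoodOver
  constructor
  · intro h
    have := h Finset.univ
    simpa using this
  · intro h T
    rcases T.eq_empty_or_nonempty with rfl | hT
    · rw [Finset.prod_empty, mul_one]
      exact one_good c
    · have : T = {0} := by
        obtain ⟨i, hi⟩ := hT
        ext j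
        rw [Finset.mem_singleton]
        have hj : j = 0 := Subsingleton.elim j 0
        have hi0 : i = 0 := Subsingleton.elim i 0
        subst hi0
        exact ⟨fun _ => hj, fun _ => hj ▸ hi⟩
      rw [this, Finset.prod_singleton, one_mul]
      exact h

theorem fund_core {D : ℤ} (h : Fund D) : Squarefree (core D) := by
  rcases h with ⟨h1, h2⟩ | ⟨m, rfl, h1, h2⟩
  · unfold core
    rw [if_pos (by omega)]
    exact h1
  · unfold core
    rw [if_neg (by omega)]
    have : 4 * m / 4 = m := by omega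
    rw [this]
    exact h1

theorem count_eq (P Q : ℤ → Prop) (h : ∀ d, Squarefree d → (P d ↔ Q d)) (X : ℕ) :
    count P X = NS Q X := by
  classical
  unfold count NS
  refine congrArg Finset.card (Finset.ext fun n => ?_)
  refine (Finset.mem_filter).trans (Iff.trans ?_ (Finset.mem_filter).symm)
  refine and_congr_right fun _ => and_congr_right fun hs => h n hs

theorem countDisc_eq (P Q : ℤ → Prop) (h : ∀ d, Squarefree d → (P d ↔ Q d)) (X : ℕ) :
    countDisc P X = NF Q X := by
  classical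
  unfold countDisc NF
  refine congrArg Finset.card (Finset.ext fun n => ?_)
  refine (Finset.mem_filter).trans (Iff.trans ?_ (Finset.mem_filter).symm)
  refine and_congr_right fun _ => and_congr_right fun hs => h _ (fund_core hs)

/-- from the densities of the criteria -/
theorem dens_of {P Q : ℤ → Prop} {p n : ℝ} (hPQ : ∀ d, Squarefree d → (P d ↔ Q d))
    (h : Pool.Agent.N975.SD.Sd Q p n) : HasProportion P p := by
  obtain ⟨h1, h2, h3, h4⟩ := h
  refine ⟨?_, ?_⟩
  · refine h2.congr fun X => ?_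
    rw [countDisc_eq _ _ fun d hs => and_congr_right fun _ => hPQ d hs,
      countDisc_eq (fun D => 0 < D) (fun D => 0 < D ∧ True) fun d _ => (iff_of_eq (and_true _)).symm]
  · refine h1.congr fun X => ?_
    rw [count_eq _ _ fun d hs => and_congr_right fun _ => hPQ d hs,
      count_eq (fun D => 0 < D) (fun D => 0 < D ∧ True) fun d _ => (iff_of_eq (and_true _)).symm]

theorem hasProd_eta : HasProd (fun i : ℕ => 1 - (1 / 2 : ℝ) ^ (i + 1)) eta := by
  have h : Multipliable fun i : ℕ => 1 + -((1 / 2 : ℝ) ^ (i + 1)) := by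
    apply multipliable_one_add_of_summable
    have h1 : Summable fun i : ℕ => (1 / 2 : ℝ) ^ i * (1 / 2) :=
      (summable_geometric_of_lt_one (by norm_num) (by norm_num)).mul_right _
    refine h1.congr fun i => ?_
    rw [norm_neg, Real.norm_of_nonneg (by positivity), pow_succ]
  have h3 := h.hasProd
  have e : (fun i : ℕ => 1 + -((1 / 2 : ℝ) ^ (i + 1))) = fun i : ℕ => 1 - (1 / 2 : ℝ) ^ (i + 1) := by
    funext i
    ring
  rw [e] at h3
  exact h3

theorem hasProd_c2 : HasProd (fun i : ℕ => 1 - (1 / 2 : ℝ) ^ (2 * i + 1)) c2 := by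
  have h : Multipliable fun i : ℕ => 1 + -((1 / 2 : ℝ) ^ (2 * i + 1)) := by
    apply multipliable_one_add_of_summable
    have h1 : Summable fun i : ℕ => (1 / 4 : ℝ) ^ i * (1 / 2) :=
      (summable_geometric_of_lt_one (by norm_num) (by norm_num)).mul_right _
    refine h1.congr fun i => ?_
    rw [norm_neg, Real.norm_of_nonneg (by positivity), pow_succ, pow_mul]
    norm_num
  have h3 := h.hasProd
  have e : (fun i : ℕ => 1 + -((1 / 2 : ℝ) ^ (2 * i + 1))) =
      fun i : ℕ => 1 - (1 / 2 : ℝ) ^ (2 * i + 1) := by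
    funext i
    ring
  rw [e] at h3
  exact h3

theorem rz0 (d : ℤ) : GoodOver 0 d ↔ Pool.Agent.N963.JT.R15 d :=
  (good_one 0 d).trans (rz_iff 0 d)

theorem rz1 (d : ℤ) : GoodOver 1 d ↔ Pool.Agent.N963.JT.R17 d :=
  (good_one 1 d).trans (rz_iff 1 d)

theorem rz2 (d : ℤ) : GoodOver 2 d ↔ Pool.Agent.N975.SD.R21 d :=
  (good_one 2 d).trans (rz_iff 2 d)

open Pool.Agent.N856.JL in
/-- fixed field, varying form (helper856) -/
theorem fixed {r : ℕ} {d : Fin r → ℕ} (hd : ∀ i, SplitNumber (d i))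
    (hi : Independent fun i => (d i : ℤ)) :
    HasDensity (fun n => TwistNumber n ∧ ∀ i, n.Coprime (d i))
      (fun n => Good 0 (fun i => (d i : ℤ)) (-(n : ℤ))) (eta ^ 2 ^ r) := by
  obtain ⟨-, h, -⟩ := Pool.Agent.N856.JL.Res.main
  have hi' : Pool.Agent.N856.JL.Res.Independent d := by
    intro T hT hsq
    refine hi T hT ?_
    have h1 := Int.isSquare_natCast_iff.2 hsq
    rwa [Nat.cast_prod] at h1
  have h2 := h r d hd hi'
  have he : Pool.Agent.N856.JL.Res.eta = eta := hasProd_eta.tprod_eq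
  rw [he] at h2
  have e : (fun n : ℕ => Good 0 (fun i => (d i : ℤ)) (-(n : ℤ))) =
      Pool.Agent.N856.JL.Res.Good d := by
    funext n
    refine propext (forall_congr' fun T => ?_)
    exact (rz_iff 0 _).trans (Pool.Agent.N856.JL.Res.rz_iff _).symm
  rw [e]
  exact h2

theorem good_two {d m : ℤ} (h1 : RankZeroShaTwo 1 m) (h2 : RankZeroShaTwo 1 (m * d)) :
    Good 1 (fun _ : Fin 1 => d) m := by
  intro T
  rcases T.eq_empty_or_nonempty with rfl | hT
  · rw [Finset.prod_empty, mul_one]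
    exact h1
  · have : T = {0} := by
      obtain ⟨i, hi⟩ := hT
      ext j
      rw [Finset.mem_singleton]
      have hj : j = 0 := Subsingleton.elim j 0
      have hi0 : i = 0 := Subsingleton.elim i 0
      subst hi0
      exact ⟨fun _ => hj, fun _ => hj ▸ hi⟩
    rw [this, Finset.prod_singleton]
    exact h2

theorem of_sg {m : ℤ} (hs : Squarefree m) (h : Pool.Agent.N875.P17.Sg m) : RankZeroShaTwo 1 m :=
  (rz_iff 1 m).2 ((Pool.Agent.N875.P17.fin2S_iff hs).2 h)

/-- the quadratic fields with good twists, by the pairs of twists of helper 809 -/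
theorem every {d : ℤ} (hs : Squarefree d) (hd : ¬ (d < 0 ∧ jacobiSym d 17 = 1)) (B : ℕ) :
    ∃ m : ℤ, Squarefree m ∧ B < m.natAbs ∧ Good 1 (fun _ : Fin 1 => d) m := by
  have h0 : d ≠ 0 := hs.ne_zero
  have ha : d.natAbs ≠ 0 := Int.natAbs_ne_zero.2 h0
  rcases lt_or_gt_of_ne h0 with h2 | h2
  · have h3 : jacobiSym d 17 ≠ 1 := fun h3 => hd ⟨h2, h3⟩
    obtain ⟨k, k1, kB, k3, k4⟩ := Pool.Agent.N809.SN.exists_k d.natAbs
    have hkd : ¬ (k : ℤ) ∣ d := fun hd => by
      have := Nat.le_of_dvd (Int.natAbs_pos.2 h0) (Int.natCast_dvd.1 hd)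
      omega
    obtain ⟨t, ht, hc⟩ := Pool.Agent.N809.SN.neg hs h2 h3 k1 k3 k4 hkd
    obtain ⟨l, l1, lB, l2⟩ := Pool.Agent.N809.SN.dir
      (mul_ne_zero (by norm_num) (mul_ne_zero k1.ne_zero ha)) ht B
    obtain ⟨h4, h5, h6, h7⟩ := hc l l1 l2
    refine ⟨-(l : ℤ) * -(k : ℤ), h4, ?_, good_two (of_sg h4 h6) ?_⟩
    · rw [Int.natAbs_mul, Int.natAbs_neg, Int.natAbs_neg, Int.natAbs_natCast, Int.natAbs_natCast]
      exact lt_of_lt_of_le lB (Nat.le_mul_of_pos_right _ k1.pos)
    · have e : -(l : ℤ) * -(k : ℤ) * d = -(l : ℤ) * (-(k : ℤ) * d) := by ring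
      rw [e]
      exact of_sg h5 h7
  · by_cases h3 : jacobiSym d 17 = -1
    · obtain ⟨t, ht, hc⟩ := Pool.Agent.N809.SN.pos2 hs h2 h3
      obtain ⟨l, l1, lB, l2⟩ := Pool.Agent.N809.SN.dir (mul_ne_zero (by norm_num) ha) ht B
      obtain ⟨h4, h5, h6, h7⟩ := hc l l1 l2
      refine ⟨-(l : ℤ) * 17, h4, ?_, good_two (of_sg h4 h6) ?_⟩
      · omega
      · have e : -(l : ℤ) * 17 * d = -(l : ℤ) * (17 * d) := by ring
        rw [e]
        exact of_sg h5 h7
    · obtain ⟨t, ht, hc⟩ := Pool.Agent.N809.SN.pos1 hs h2 h3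
      obtain ⟨l, l1, lB, l2⟩ := Pool.Agent.N809.SN.dir (mul_ne_zero (by norm_num) ha) ht B
      obtain ⟨h4, h5, h6, h7⟩ := hc l l1 l2
      exact ⟨-(l : ℤ), h4, by omega, good_two (of_sg h4 h6) (of_sg h5 h7)⟩

/-- the multiquadratic fields of discriminant prime to `34` (theorem of helper 809) -/
theorem multi {r : ℕ} (d : Fin r → ℤ) (hd : ∀ i, d i % 4 = 1)
    (h : (∀ i, 0 < d i ∧ ¬ (17 : ℤ) ∣ d i) ∨ ∀ i, jacobiSym (d i) 17 = (d i).sign) (B : ℕ) :
    ∃ m : ℤ, Squarefree m ∧ B < m.natAbs ∧ Good 1 d m := by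
  have key : ∃ m : ℤ, Squarefree m ∧ (B : ℤ) < |m| ∧ ∀ T : Finset (Fin r), ∃ D k : ℤ,
      D ≠ 0 ∧ k ≠ 0 ∧ ∏ i ∈ T, d i = D * k ^ 2 ∧ Squarefree (m * D) ∧
        Pool.Agent.N875.P17.Sg (m * D) := by
    rcases h with h | h
    · exact Pool.Agent.N809.SN.prod_ex3 d (fun i => ⟨(h i).1, hd i, (h i).2⟩) B
    · exact Pool.Agent.N809.SN.prod_ex2 d (fun i h0 => by
        have := hd i
        rw [h0] at this
        norm_num at this) (fun i => ⟨hd i, h i⟩) B
  obtain ⟨m, h1, h2, h3⟩ := key
  refine ⟨m, h1, ?_, fun T => ?_⟩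
  · rw [← Int.natCast_natAbs] at h2
    exact_mod_cast h2
  · obtain ⟨D, k, hD, hk, he, hs, hS⟩ := h3 T
    have e1 : m * ∏ i ∈ T, d i = m * D * k ^ 2 := by
      rw [he]
      ring
    rw [e1, rz_iff, Pool.Agent.N975.AF.fin2_scale (disc 1) hs.ne_zero hk]
    exact (Pool.Agent.N875.P17.fin2S_iff hs).2 hS

end proof

/-- **The Bloch-Kato rank formula at `p = 2` for the Hilbert modular forms of three curves without
complex multiplication, all twists, over all totally real multiquadratic fields.** -/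
theorem result :
    -- all totally real multiquadratic fields
    (∀ (c : Fin 3) (r : ℕ) (d : Fin r → ℤ) (m : ℤ), (∀ i, 0 < d i) → m ≠ 0 → Independent d →
      Good c d m → ∀ (K : Type) [Field K] [NumberField K], IsMultiquadratic d K →
        NumberField.IsTotallyReal K ∧ Module.finrank ℚ K = 2 ^ r ∧ BlochKatoZero (E c m K)) ∧
    (∃ η κ : ℝ, HasProd (fun i : ℕ => 1 - (1 / 2 : ℝ) ^ (i + 1)) η ∧ 0.2887 < η ∧ η < 0.2889 ∧
      HasProd (fun i : ℕ => 1 - (1 / 2 : ℝ) ^ (2 * i + 1)) κ ∧ 0.4194 < κ ∧ κ < 0.4195 ∧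
      -- the real quadratic fields
      HasProportion (GoodOver 0) (23 / 48 * η) ∧
      HasProportion (GoodOver 1) (17 / 36 * κ) ∧
      HasProportion (GoodOver 2) (71 / 128 * η) ∧
      HasProportion (fun D => GoodOver 0 D ∧ GoodOver 1 D) (391 / 1728 * (η * κ)) ∧
      -- fixed field, varying form
      ∀ (r : ℕ) (d : Fin r → ℕ), (∀ i, SplitNumber (d i)) → (Independent fun i => (d i : ℤ)) →
        HasDensity (fun n => TwistNumber n ∧ ∀ i, n.Coprime (d i))
          (fun n => Good 0 (fun i => (d i : ℤ)) (-(n : ℤ))) (η ^ 2 ^ r)) ∧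
    -- the good twists of the curve of conductor `17` over every real quadratic field
    (∀ D : ℤ, Squarefree D → 0 < D → ∀ B : ℕ,
      ∃ m : ℤ, Squarefree m ∧ B < m.natAbs ∧ Good 1 (fun _ : Fin 1 => D) m) ∧
    -- the good twists over every totally real multiquadratic field of discriminant prime to `34`
    ∀ (r : ℕ) (d : Fin r → ℤ), (∀ i, 0 < d i ∧ d i % 4 = 1 ∧ ¬ (17 : ℤ) ∣ d i) → ∀ B : ℕ,
      ∃ m : ℤ, Squarefree m ∧ B < m.natAbs ∧ Good 1 d m := by
  obtain ⟨-, -, -, hb1, hb2⟩ := Pool.Agent.Y948.CQ.t_C2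
  refine ⟨?_, ⟨Pool.Agent.N916.GB.eta, Pool.Agent.Y703.CQ.c2, hasProd_eta,
      Pool.Agent.N916.GB.eta_bounds.1, Pool.Agent.N916.GB.eta_bounds.2, hasProd_c2, hb1, hb2,
      dens_of (fun d _ => rz0 d) Pool.Agent.N975.SD.sd15,
      dens_of (fun d _ => rz1 d) Pool.Agent.N975.SD.sd17,
      dens_of (fun d _ => rz2 d) Pool.Agent.N975.SD.sd21,
      dens_of (fun d _ => and_congr (rz0 d) (rz1 d)) Pool.Agent.N975.SD.sdJ,
      fun r d hd hi => fixed hd hi⟩, fun D hs hD B => every hs (fun h1 => by omega) B,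
    fun r d hd B => multi d (fun i => (hd i).2.1) (Or.inl fun i => ⟨(hd i).1, (hd i).2.2⟩) B⟩
  intro c r d m hpos hm hind hg K _ _ hK
  obtain ⟨x, hx, hgen⟩ := hK
  exact ⟨Pool.Agent.N975.BK.totReal hpos K x hx hgen, bk c hm hind hg K x hx hgen⟩

end Pool.Agent.Results.MP_6e2fc3_nt.TwistsNonCMTotallyReal
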